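import Mathlib

/-!
# Entropy of functions on a finite probability space, through partitions

`H μ f` only depends on the partition of `Ω` into the classes of `f`; no instances are needed on
the target type.
-/

set_option autoImplicit false

open Finset

namespace Pool.Agent.H19.Ent

variable {Ω Ω' α β γ δ : Type*} [Fintype Ω] [Fintype Ω']

open Classical in
/-- mass of the class of `w` under `f` -/
noncomputable def cl (μ : Ω → ℝ) (f : Ω → α) (w : Ω) : ℝ := ∑ v, if f v = f w then μ v else 0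

/-- entropy of `f` (natural logarithms) -/
noncomputable def H (μ : Ω → ℝ) (f : Ω → α) : ℝ := -∑ w, μ w * Real.log (cl μ f w)

/-- `μ` is a probability weight -/
structure PW (μ : Ω → ℝ) : Prop where
  nonneg : ∀ w, 0 ≤ μ w
  sum_one : ∑ w, μ w = 1

/-- product weight -/
def prd (μ : Ω → ℝ) (ν : Ω' → ℝ) : Ω × Ω' → ℝ := fun w => μ w.1 * ν w.2

/-- iid copies indexed by `ι` -/
def pwr (ι : Type*) [Fintype ι] (μ : Ω → ℝ) : (ι → Ω) → ℝ := fun w => ∏ i, μ (w i)

open Classical in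
/-- conditional weight given `g = b` -/
noncomputable def cnd (μ : Ω → ℝ) (g : Ω → β) (b : β) : Ω → ℝ :=
  fun w => if g w = b then μ w / ∑ v, (if g v = b then μ v else 0) else 0

open Classical in
/-- push-forward -/
noncomputable def psh (μ : Ω → ℝ) (f : Ω → α) : α → ℝ := fun x => ∑ w, if f w = x then μ w else 0

lemma PW.prd {μ : Ω → ℝ} {ν : Ω' → ℝ} (hμ : PW μ) (hν : PW ν) : PW (prd μ ν) := by
  sorry

lemma PW.pwr {ι : Type*} [Fintype ι] [DecidableEq ι] {μ : Ω → ℝ} (hμ : PW μ) : PW (pwr ι μ) := by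
  sorry

lemma PW.cnd {μ : Ω → ℝ} (hμ : PW μ) (g : Ω → β) (w : Ω) (hw : μ w ≠ 0) :
    PW (cnd μ g (g w)) := by
  sorry

lemma PW.psh {μ : Ω → ℝ} (hμ : PW μ) [Fintype α] (f : Ω → α) : PW (psh μ f) := by
  sorry

/-- same partition (on the support), same entropy -/
lemma H_congr {μ : Ω → ℝ} {f : Ω → α} {g : Ω → β}
    (h : ∀ v w, μ v ≠ 0 → μ w ≠ 0 → (f v = f w ↔ g v = g w)) : H μ f = H μ g := by
  sorry

/-- a finer partition has larger entropy -/
lemma H_mono {μ : Ω → ℝ} (hμ : PW μ) {f : Ω → α} {g : Ω → β}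
    (h : ∀ v w, μ v ≠ 0 → μ w ≠ 0 → f v = f w → g v = g w) : H μ g ≤ H μ f := by
  sorry

lemma H_nonneg {μ : Ω → ℝ} (hμ : PW μ) (f : Ω → α) : 0 ≤ H μ f := by
  sorry

/-- submodularity: `A`, `B` both determine `C`, and together they determine `J` -/
lemma H_sub {μ : Ω → ℝ} (hμ : PW μ) {A : Ω → α} {B : Ω → β} {C : Ω → γ} {J : Ω → δ}
    (hA : ∀ v w, μ v ≠ 0 → μ w ≠ 0 → A v = A w → C v = C w)
    (hB : ∀ v w, μ v ≠ 0 → μ w ≠ 0 → B v = B w → C v = C w)
    (hJ : ∀ v w, μ v ≠ 0 → μ w ≠ 0 → A v = A w → B v = B w → J v = J w) :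
    H μ J + H μ C ≤ H μ A + H μ B := by
  sorry

/-- subadditivity -/
lemma H_pair_le {μ : Ω → ℝ} (hμ : PW μ) (f : Ω → α) (g : Ω → β) :
    H μ (fun w => (f w, g w)) ≤ H μ f + H μ g := by
  sorry

lemma H_le_log_card {μ : Ω → ℝ} (hμ : PW μ) [Fintype α] (f : Ω → α) :
    H μ f ≤ Real.log (Fintype.card α) := by
  sorry

/-- independent variables -/
lemma H_prd {μ : Ω → ℝ} {ν : Ω' → ℝ} (hμ : PW μ) (hν : PW ν) (f : Ω → α) (g : Ω' → β) :
    H (prd μ ν) (fun w => (f w.1, g w.2)) = H μ f + H ν g := by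
  sorry

lemma H_prd_fst {μ : Ω → ℝ} {ν : Ω' → ℝ} (hν : PW ν) (f : Ω → α) :
    H (prd μ ν) (fun w => f w.1) = H μ f := by
  sorry

lemma H_prd_snd {μ : Ω → ℝ} {ν : Ω' → ℝ} (hμ : PW μ) (f : Ω' → α) :
    H (prd μ ν) (fun w => f w.2) = H ν f := by
  sorry

/-- transport along an equivalence (permutation of the copies etc.) -/
lemma H_equiv {μ : Ω → ℝ} {ν : Ω' → ℝ} (e : Ω ≃ Ω') (hν : ∀ w, ν (e w) = μ w) (f : Ω' → α) :
    H μ (fun w => f (e w)) = H ν f := by
  sorry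

/-- the entropy only depends on the law -/
lemma H_psh {μ : Ω → ℝ} [Fintype α] (f : Ω → α) (g : α → β) :
    H (psh μ f) g = H μ (fun w => g (f w)) := by
  sorry

/-- chain rule -/
lemma H_chain {μ : Ω → ℝ} (hμ : PW μ) (f : Ω → α) (g : Ω → β) :
    H μ (fun w => (f w, g w)) - H μ g = ∑ w, μ w * H (cnd μ g (g w)) f := by
  sorry

/-- the entropy of a law -/
lemma H_id (p : Ω → ℝ) : H p (fun w => w) = ∑ w, Real.negMulLog (p w) := by
  sorry

/-- Pinsker's inequality relative to the uniform law -/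
lemma pinsker {p : Ω → ℝ} (hp : PW p) :
    ∑ w, |p w - 1 / (Fintype.card Ω : ℝ)| ≤
      Real.sqrt (2 * (Real.log (Fintype.card Ω) - H p (fun w => w))) := by
  sorry

end Pool.Agent.H19.Ent
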